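import Pool.Agent.H465.CG.Stm

/-!
# Project CG (helper465), task SHORT: the pairs of ideals of small norm in the same class
-/

set_option autoImplicit false

open NumberField

namespace Pool.Agent.H650.CG

open Pool.Agent.H465.CG

theorem nn_pos {K : Type} [Field K] [NumberField K] {I : Ideal (𝓞 K)} (h : I ≠ ⊥) : 0 < NN I := by
  have h1 : Ideal.absNorm I ≠ 0 := fun h0 => h (Ideal.absNorm_eq_zero_iff.1 h0)
  unfold NN
  exact_mod_cast Nat.pos_of_ne_zero h1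

theorem nn_nonneg {K : Type} [Field K] [NumberField K] (I : Ideal (𝓞 K)) : 0 ≤ NN I := by
  unfold NN
  positivity

theorem one_le_AA (K : Type) [Field K] [NumberField K] (m : ℕ) (hm : 1 ≤ m) : 1 ≤ AA K m := by
  unfold AA
  have h1 : (1 : ℝ) ≤ |(discr K : ℝ)| := by
    have h2 : (1 : ℤ) ≤ |discr K| := Int.one_le_abs (discr_ne_zero K)
    exact_mod_cast h2
  have h3 : (1 : ℝ) ≤ (m : ℝ) ^ 2 := by
    have : (1 : ℝ) ≤ m := by exact_mod_cast hm
    nlinarith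
  nlinarith

/-- the elements which occur have `J = 0` -/
theorem J_zero {K : Type} [Field K] [NumberField K] (t J : 𝓞 K →+ ℤ) (hJ1 : J 1 = 0)
    (hN : ∀ x : 𝓞 K, 4 * NN (Ideal.span {x}) = (t x : ℝ) ^ 2 + (J x : ℝ) ^ 2 * |(discr K : ℝ)|)
    (m n : ℕ) (hm : 1 ≤ m) (β : 𝓞 K) (hβ : β - (n : 𝓞 K) ∈ Ideal.span {(m : 𝓞 K)})
    (hb : 9 * NN (Ideal.span {β}) ≤ AA K m) : J β = 0 := by
  by_contra hne
  obtain ⟨γ, hγ⟩ := Ideal.mem_span_singleton.1 hβ
  have h1 : β = n • (1 : 𝓞 K) + m • γ := by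
    rw [nsmul_eq_mul, nsmul_eq_mul, mul_one, ← hγ]
    ring
  have h2 : J β = m * J γ := by
    rw [h1, map_add, map_nsmul, map_nsmul, hJ1]
    simp
  have h3 : J γ ≠ 0 := by
    intro h0
    rw [h0, mul_zero] at h2
    exact hne h2
  have h4 : (1 : ℝ) ≤ (J γ : ℝ) ^ 2 := by
    have h5 : (1 : ℤ) ≤ (J γ) ^ 2 := by
      have := Int.one_le_abs h3
      rw [← sq_abs]
      nlinarith
    exact_mod_cast h5
  have h6 := hN β
  have h7 : AA K m ≤ (J β : ℝ) ^ 2 * |(discr K : ℝ)| := by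
    unfold AA
    rw [h2]
    push_cast
    have h8 : 0 ≤ |(discr K : ℝ)| * (m : ℝ) ^ 2 := by positivity
    nlinarith
  have h9 : 0 ≤ (t β : ℝ) ^ 2 := sq_nonneg _
  have h10 := one_le_AA K m hm
  linarith

/-- an element is determined by its coordinates -/
theorem eq_of_coord {K : Type} [Field K] [NumberField K] (t J : 𝓞 K →+ ℤ)
    (hN : ∀ x : 𝓞 K, 4 * NN (Ideal.span {x}) = (t x : ℝ) ^ 2 + (J x : ℝ) ^ 2 * |(discr K : ℝ)|)
    (β β' : 𝓞 K) (h1 : t β = t β') (h2 : J β = J β') : β = β' := by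
  by_contra hne
  have h3 : Ideal.span {β - β'} ≠ (⊥ : Ideal (𝓞 K)) := by
    rw [Ne, Ideal.span_singleton_eq_bot]
    exact sub_ne_zero.2 hne
  have h4 := hN (β - β')
  rw [map_sub, map_sub, h1, h2, sub_self, sub_self] at h4
  have h5 := nn_pos h3
  simp at h4
  linarith

open Classical in
theorem t_short : SGeo → SPair → SDiv → SShort := by
  intro hGeo hPair hDiv ε hε
  obtain ⟨C₁, hC₁, hdiv⟩ := hDiv (ε / 2) (by positivity)
  have hsum : Summable fun n : ℤ => |(n : ℝ)| ^ (-(1 + ε)) :=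
    Real.summable_abs_int_rpow (by linarith)
  set Z : ℝ := ∑' n : ℤ, |(n : ℝ)| ^ (-(1 + ε)) with hZ
  have hZ0 : 0 ≤ Z := tsum_nonneg fun n => by positivity
  refine ⟨max 1 (2 * C₁ * Z), le_max_left _ _, ?_⟩
  intro K _ _ _ hK m hm S hS
  obtain ⟨t, J, hJ1, hN⟩ := hGeo K hK
  set A : ℝ := AA K m with hA
  have hA1 : 1 ≤ A := one_le_AA K m hm
  set F := (S ×ˢ S).filter (fun p => Rel m p.1 p.2) with hF
  -- the data attached to the pairs
  have hdata : ∀ p : Ideal (𝓞 K) × Ideal (𝓞 K), p ∈ F → ∃ (β : 𝓞 K) (𝔠 : Ideal (𝓞 K)),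
      β ≠ 0 ∧ p.2 * 𝔠 = Ideal.span {(Ideal.absNorm p.2 : 𝓞 K)} ∧
      p.1 * 𝔠 = Ideal.span {β} ∧ NN 𝔠 = NN p.2 ∧ NN (Ideal.span {β}) = NN p.1 * NN p.2 ∧
      β - (Ideal.absNorm p.2 : 𝓞 K) ∈ Ideal.span {(m : 𝓞 K)} := by
    intro p hp
    obtain ⟨hpS, hrel⟩ := Finset.mem_filter.1 hp
    obtain ⟨h1, h2⟩ := Finset.mem_product.1 hpS
    exact hPair K hK m p.1 p.2 hm (hS _ h1).1 (hS _ h2).1 hrel
  choose! β 𝔠 hβ0 h𝔟𝔠 h𝔞𝔠 hN𝔠 hNβ hβm using hdata
  have hne1 : ∀ p ∈ F, p.1 ≠ ⊥ := fun p hp =>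
    (hS _ (Finset.mem_product.1 (Finset.mem_filter.1 hp).1).1).1
  have hne2 : ∀ p ∈ F, p.2 ≠ ⊥ := fun p hp =>
    (hS _ (Finset.mem_product.1 (Finset.mem_filter.1 hp).1).2).1
  have hsm : ∀ p ∈ F, 9 * NN (Ideal.span {β p}) ≤ A := by
    intro p hp
    obtain ⟨h1, h2⟩ := Finset.mem_product.1 (Finset.mem_filter.1 hp).1
    have h3 := (hS _ h1).2
    have h4 := (hS _ h2).2
    have h5 := nn_nonneg p.1
    have h6 := nn_nonneg p.2
    rw [hNβ p hp]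
    have h7 : (9 * (NN p.1 * NN p.2)) ^ 2 ≤ A ^ 2 := by
      calc (9 * (NN p.1 * NN p.2)) ^ 2 = (9 * NN p.1 ^ 2) * (9 * NN p.2 ^ 2) := by ring
        _ ≤ A * A := mul_le_mul h3 h4 (by positivity) (by linarith)
        _ = A ^ 2 := by ring
    exact le_of_sq_le_sq h7 (by linarith)
  have hJ : ∀ p ∈ F, J (β p) = 0 := fun p hp =>
    J_zero t J hJ1 hN m _ hm (β p) (hβm p hp) (hsm p hp)
  have hNt : ∀ p ∈ F, NN (Ideal.span {β p}) = (t (β p) : ℝ) ^ 2 / 4 := by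
    intro p hp
    have h1 := hN (β p)
    rw [hJ p hp] at h1
    simp at h1
    linarith
  have hspan : ∀ p ∈ F, Ideal.span {β p} ≠ (⊥ : Ideal (𝓞 K)) := fun p hp => by
    rw [Ne, Ideal.span_singleton_eq_bot]
    exact hβ0 p hp
  have ht0 : ∀ p ∈ F, t (β p) ≠ 0 := by
    intro p hp h0
    have h1 := nn_pos (hspan p hp)
    rw [hNt p hp, h0] at h1
    simp at h1
  -- the weight depends only on `t`
  have hw : ∀ p ∈ F, (NN p.1 * NN p.2) ^ (-(1 / 2) : ℝ) =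
      ((t (β p) : ℝ) ^ 2 / 4) ^ (-(1 / 2) : ℝ) := by
    intro p hp
    rw [← hNt p hp, hNβ p hp]
  set T : Finset ℤ := F.image fun p => t (β p) with hT
  have hfib : ∑ p ∈ F, (NN p.1 * NN p.2) ^ (-(1 / 2) : ℝ) =
      ∑ τ ∈ T, ∑ p ∈ F.filter (fun p => t (β p) = τ), (NN p.1 * NN p.2) ^ (-(1 / 2) : ℝ) :=
    (Finset.sum_fiberwise_of_maps_to (fun p hp => Finset.mem_image_of_mem _ hp) _).symm
  have hterm : ∀ τ ∈ T, ∑ p ∈ F.filter (fun p => t (β p) = τ),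
      (NN p.1 * NN p.2) ^ (-(1 / 2) : ℝ) ≤ 2 * C₁ * A ^ ε * |(τ : ℝ)| ^ (-(1 + ε)) := by
    intro τ hτ
    obtain ⟨p₀, hp₀, hpτ⟩ := Finset.mem_image.1 hτ
    have hτ0 : τ ≠ 0 := by rw [← hpτ]; exact ht0 p₀ hp₀
    -- the number of the pairs
    have hcard : ((F.filter (fun p => t (β p) = τ)).card : ℝ) ≤
        C₁ * ((τ : ℝ) ^ 2 / 4) ^ (ε / 2) := by
      have h1 : (F.filter (fun p => t (β p) = τ)).card =
          ((F.filter (fun p => t (β p) = τ)).image 𝔠).card := by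
        rw [Finset.card_image_of_injOn]
        intro p hp p' hp' hcc
        obtain ⟨hpF, hpt⟩ := Finset.mem_filter.1 (Finset.mem_coe.1 hp)
        obtain ⟨hpF', hpt'⟩ := Finset.mem_filter.1 (Finset.mem_coe.1 hp')
        have hββ : β p = β p' := eq_of_coord t J hN _ _ (hpt.trans hpt'.symm)
          ((hJ p hpF).trans (hJ p' hpF').symm)
        have hcc' : 𝔠 p = 𝔠 p' := hcc
        have hc0 : 𝔠 p ≠ 0 := by
          intro h0
          have h2 := hN𝔠 p hpF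
          have h3 := nn_pos (hne2 p hpF)
          rw [h0] at h2
          unfold NN at h2 h3
          rw [← h2] at h3
          simp at h3
        have hnb : Ideal.absNorm p.2 = Ideal.absNorm p'.2 := by
          have h2 := hN𝔠 p hpF
          have h3 := hN𝔠 p' hpF'
          rw [hcc', h3] at h2
          unfold NN at h2
          exact_mod_cast h2.symm
        have h2 : p.2 = p'.2 := by
          apply mul_right_cancel₀ hc0
          rw [h𝔟𝔠 p hpF, hnb, ← h𝔟𝔠 p' hpF', hcc']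
        have h3 : p.1 = p'.1 := by
          apply mul_right_cancel₀ hc0
          rw [h𝔞𝔠 p hpF, hββ, ← h𝔞𝔠 p' hpF', hcc']
        exact Prod.ext h3 h2
      rw [h1]
      have h4 := hdiv K hK (Ideal.span {β p₀}) (hspan p₀ hp₀)
        ((F.filter (fun p => t (β p) = τ)).image 𝔠) (by
          intro c hc
          obtain ⟨p, hp, rfl⟩ := Finset.mem_image.1 hc
          obtain ⟨hpF, hpt⟩ := Finset.mem_filter.1 hp
          have hββ : β p = β p₀ := eq_of_coord t J hN _ _ (hpt.trans hpτ.symm)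
            ((hJ p hpF).trans (hJ p₀ hp₀).symm)
          rw [← hββ, ← h𝔞𝔠 p hpF]
          exact dvd_mul_left _ _)
      rw [hNt p₀ hp₀, hpτ] at h4
      exact h4
    have hτa : (1 : ℝ) ≤ |(τ : ℝ)| := by
      have h2 := Int.one_le_abs hτ0
      exact_mod_cast h2
    have hτpos : (0 : ℝ) < |(τ : ℝ)| := by linarith
    have hτA : (τ : ℝ) ^ 2 ≤ A := by
      have h1 := hsm p₀ hp₀
      rw [hNt p₀ hp₀, hpτ] at h1
      linarith [sq_nonneg (τ : ℝ)]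
    have hconst : ∑ p ∈ F.filter (fun p => t (β p) = τ), (NN p.1 * NN p.2) ^ (-(1 / 2) : ℝ) =
        ((F.filter (fun p => t (β p) = τ)).card : ℝ) * ((τ : ℝ) ^ 2 / 4) ^ (-(1 / 2) : ℝ) := by
      rw [← nsmul_eq_mul, ← Finset.sum_const]
      refine Finset.sum_congr rfl fun p hp => ?_
      obtain ⟨hpF, hpt⟩ := Finset.mem_filter.1 hp
      rw [hw p hpF, hpt]
    rw [hconst]
    have hq : (0 : ℝ) < (τ : ℝ) ^ 2 / 4 := by
      have : (0 : ℝ) < (τ : ℝ) ^ 2 := by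
        rw [← sq_abs]
        positivity
      positivity
    have hroot : ((τ : ℝ) ^ 2 / 4) ^ (-(1 / 2) : ℝ) = 2 * |(τ : ℝ)| ^ (-1 : ℝ) := by
      have h1 : (τ : ℝ) ^ 2 / 4 = (|(τ : ℝ)| / 2) ^ (2 : ℝ) := by
        rw [Real.rpow_two, div_pow, sq_abs]
        norm_num
      rw [h1, ← Real.rpow_mul (by positivity)]
      norm_num
      rw [Real.rpow_neg_one, Real.rpow_neg_one]
      field_simp
    have hpow : ((τ : ℝ) ^ 2 / 4) ^ (ε / 2) ≤ |(τ : ℝ)| ^ ε := by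
      calc ((τ : ℝ) ^ 2 / 4) ^ (ε / 2) ≤ (|(τ : ℝ)| ^ (2 : ℝ)) ^ (ε / 2) := by
            apply Real.rpow_le_rpow hq.le _ (by positivity)
            rw [Real.rpow_two, sq_abs]
            linarith [sq_nonneg (τ : ℝ)]
        _ = |(τ : ℝ)| ^ ε := by
            rw [← Real.rpow_mul (by positivity)]
            congr 1
            ring
    have hpow2 : |(τ : ℝ)| ^ ε * |(τ : ℝ)| ^ ε ≤ A ^ ε := by
      rw [← Real.mul_rpow (by positivity) (by positivity)]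
      apply Real.rpow_le_rpow (by positivity) _ hε.le
      rw [← pow_two, sq_abs]
      exact hτA
    have hsplit : |(τ : ℝ)| ^ (-1 : ℝ) = |(τ : ℝ)| ^ ε * |(τ : ℝ)| ^ (-(1 + ε)) := by
      rw [← Real.rpow_add hτpos]
      congr 1
      ring
    calc ((F.filter (fun p => t (β p) = τ)).card : ℝ) * ((τ : ℝ) ^ 2 / 4) ^ (-(1 / 2) : ℝ)
        ≤ (C₁ * ((τ : ℝ) ^ 2 / 4) ^ (ε / 2)) * ((τ : ℝ) ^ 2 / 4) ^ (-(1 / 2) : ℝ) :=
          mul_le_mul_of_nonneg_right hcard (by positivity)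
      _ ≤ (C₁ * |(τ : ℝ)| ^ ε) * (2 * (|(τ : ℝ)| ^ ε * |(τ : ℝ)| ^ (-(1 + ε)))) := by
          rw [hroot, hsplit]
          exact mul_le_mul_of_nonneg_right (mul_le_mul_of_nonneg_left hpow (by linarith))
            (by positivity)
      _ = 2 * C₁ * (|(τ : ℝ)| ^ ε * |(τ : ℝ)| ^ ε) * |(τ : ℝ)| ^ (-(1 + ε)) := by ring
      _ ≤ 2 * C₁ * A ^ ε * |(τ : ℝ)| ^ (-(1 + ε)) := by
          apply mul_le_mul_of_nonneg_right _ (by positivity)
          exact mul_le_mul_of_nonneg_left hpow2 (by positivity)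
  calc ∑ p ∈ F, (NN p.1 * NN p.2) ^ (-(1 / 2) : ℝ)
      = ∑ τ ∈ T, ∑ p ∈ F.filter (fun p => t (β p) = τ), (NN p.1 * NN p.2) ^ (-(1 / 2) : ℝ) := hfib
    _ ≤ ∑ τ ∈ T, 2 * C₁ * A ^ ε * |(τ : ℝ)| ^ (-(1 + ε)) := Finset.sum_le_sum hterm
    _ = 2 * C₁ * A ^ ε * ∑ τ ∈ T, |(τ : ℝ)| ^ (-(1 + ε)) := by rw [Finset.mul_sum]
    _ ≤ 2 * C₁ * A ^ ε * Z := by
        apply mul_le_mul_of_nonneg_left _ (by positivity)
        exact hsum.sum_le_tsum T fun n _ => by positivity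
    _ = (2 * C₁ * Z) * A ^ ε := by ring
    _ ≤ max 1 (2 * C₁ * Z) * A ^ ε :=
        mul_le_mul_of_nonneg_right (le_max_right _ _) (by positivity)

end Pool.Agent.H650.CG
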